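import Pool.Agent.Helper80.HD.GoalsB

/-!
Project HD, packet TRV: the trivialization is bounded.
-/

set_option autoImplicit false

open MvPolynomial

noncomputable section

namespace Pool.Agent.Helper19.HD

open Pool.Agent.Helper80.HD

/-- scaling of a multihomogeneous polynomial -/
theorem eval₂_scale {R S : Type} [CommSemiring R] [CommSemiring S] {m N : ℕ} (ι : R →+* S) {β : Fin m → ℕ}
    {Q : MvPolynomial (Fin m × Fin (N + 1)) R} (hQ : MultiHomog β Q) (c : Fin m → S)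
    (y : Fin m → Fin (N + 1) → S) :
    eval₂ ι (fun p => c p.1 * y p.1 p.2) Q = (∏ i, c i ^ β i) * eval₂ ι (fun p => y p.1 p.2) Q := by
  rw [eval₂_eq', eval₂_eq', Finset.mul_sum]
  refine Finset.sum_congr rfl fun s hs => ?_
  have h1 : ∏ p : Fin m × Fin (N + 1), (c p.1 * y p.1 p.2) ^ s p
      = (∏ i, c i ^ β i) * ∏ p : Fin m × Fin (N + 1), y p.1 p.2 ^ s p := by
    simp_rw [mul_pow]
    rw [Finset.prod_mul_distrib]
    congr 1
    rw [Fintype.prod_prod_type]
    refine Finset.prod_congr rfl fun i _ => ?_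
    have h2 : ∏ j, c (i, j).1 ^ s (i, j) = ∏ j : Fin (N + 1), c i ^ s (i, j) := rfl
    rw [h2, Finset.prod_pow_eq_pow_sum, hQ s hs i]
  rw [h1]; ring

/-- scaling of a homogeneous polynomial -/
theorem eval₂_hom {R S : Type} [CommSemiring R] [CommSemiring S] {N : ℕ} (ι : R →+* S) {d : ℕ}
    {Q : MvPolynomial (Fin (N + 1)) R} (hQ : Q.IsHomogeneous d) (c : S) (y : Fin (N + 1) → S) :
    eval₂ ι (fun j => c * y j) Q = c ^ d * eval₂ ι y Q := by
  rw [eval₂_eq', eval₂_eq', Finset.mul_sum]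
  refine Finset.sum_congr rfl fun s hs => ?_
  have h1 : ∏ j : Fin (N + 1), (c * y j) ^ s j = c ^ d * ∏ j : Fin (N + 1), y j ^ s j := by
    simp_rw [mul_pow]
    rw [Finset.prod_mul_distrib, Finset.prod_pow_eq_pow_sum]
    congr 2
    have h2 := hQ (mem_support_iff.mp hs)
    have h3 : Finsupp.degree s = d := by
      rw [Finsupp.degree_eq_weight_one (R := ℕ)]
      exact h2
    rw [← h3, Finsupp.degree_eq_sum]
  rw [h1]; ring

section seg

variable {K : Type} [Field K] [Algebra K ℂ] {N : ℕ}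

theorem seg_scale (f : RMap K N) {m : ℕ} {y : Fin (m + 1) → Fin (N + 1) → ℂ} (hy : f.IsSegment y)
    (c : Fin (m + 1) → ℂ) (hc : ∀ i, c i ≠ 0) : f.IsSegment (fun i j => c i * y i j) := by
  obtain ⟨⟨h0, hE⟩, hI⟩ := hy
  refine ⟨⟨?_, ?_⟩, ?_⟩
  · intro h
    apply h0
    funext j
    have := congrFun h j
    simpa [hc 0] using this
  · intro E hE'
    obtain ⟨d, hd⟩ := f.eqs_homog E hE'
    have h1 := hE E hE'
    rw [aeval_def] at h1 ⊢
    rw [eval₂_hom _ hd, h1, mul_zero]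
  · intro i
    obtain ⟨h1, h2⟩ := hI i
    refine ⟨?_, ?_⟩
    · intro h
      apply h1
      funext j
      have := congrFun h j
      simpa [hc i.succ] using this
    · intro l
      obtain ⟨b, hb⟩ := h2 l
      refine ⟨c i.castSucc ^ f.deg l * b / c i.succ, fun j => ?_⟩
      have h3 := hb j
      rw [aeval_def] at h3 ⊢
      rw [eval₂_hom _ (f.G_homog l j), h3]
      field_simp [hc i.succ]

theorem segIdeal_scale (f : RMap K N) {m : ℕ} {Q : MvPolynomial (Fin (m + 1) × Fin (N + 1)) K}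
    (hQ : Q ∈ f.segIdeal m) (c : Fin (m + 1) → K) (hc : ∀ i, c i ≠ 0) :
    bind₁ (fun p => C (c p.1) * X p) Q ∈ f.segIdeal m := by
  intro y hy
  have hcK : ∀ i, algebraMap K ℂ (c i) ≠ 0 := fun i => by
    rw [Ne, map_eq_zero]; exact hc i
  have h1 := hQ _ (seg_scale f hy (fun i => algebraMap K ℂ (c i)) hcK)
  rw [aeval_bind₁]
  simp only [map_mul, aeval_X, aeval_C]
  exact h1

theorem vanish_scale [CharZero K] (f : RMap K N) {m : ℕ} {Ω : Type} [Field Ω] (ι : K →+* Ω)
    (y : Fin (m + 1) → Fin (N + 1) → Ω)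
    (hy : ∀ Q ∈ f.segIdeal m, eval₂ ι (fun p => y p.1 p.2) Q = 0) (μ : Fin (m + 1) → Ω) :
    ∀ Q ∈ f.segIdeal m, eval₂ ι (fun p => μ p.1 * y p.1 p.2) Q = 0 := by
  intro Q hQ
  set P : MvPolynomial (Fin (m + 1)) Ω :=
    eval₂ ((C : Ω →+* MvPolynomial (Fin (m + 1)) Ω).comp ι) (fun p => X p.1 * C (y p.1 p.2)) Q with hP
  have key : ∀ x : Fin (m + 1) → Ω, eval x P = eval₂ ι (fun p => x p.1 * y p.1 p.2) Q := by
    intro x
    rw [hP, eval₂_comp_left (eval x)]
    have e1 : (eval x).comp ((C : Ω →+* MvPolynomial (Fin (m + 1)) Ω).comp ι) = ι := by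
      ext r; simp
    have e2 : ((eval x) ∘ fun p : Fin (m + 1) × Fin (N + 1) => X p.1 * C (y p.1 p.2))
        = fun p => x p.1 * y p.1 p.2 := by
      funext p; simp
    rw [e1, e2]
  have hinf : (ι '' ({0}ᶜ : Set K)).Infinite :=
    ((Set.finite_singleton (0 : K)).infinite_compl).image ι.injective.injOn
  have hP0 : P = 0 := by
    refine funext_set (fun _ => ι '' ({0}ᶜ : Set K)) (fun _ => hinf) fun x hx => ?_
    rw [map_zero, key]
    have hx' : ∀ i, ∃ c : K, c ≠ 0 ∧ ι c = x i := fun i => by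
      obtain ⟨c, hc, hcx⟩ := hx i (Set.mem_univ i)
      exact ⟨c, hc, hcx⟩
    choose c hc hcx using hx'
    have h1 := hy _ (segIdeal_scale f hQ c hc)
    have h2 := eval₂Hom_bind₁ ι (fun p : Fin (m + 1) × Fin (N + 1) => y p.1 p.2)
      (fun p => C (c p.1) * X p) Q
    rw [coe_eval₂Hom, h1] at h2
    rw [h2]
    rw [coe_eval₂Hom]
    congr 1
    funext p
    simp [hcx]
  rw [← key, hP0, map_zero]

/-- the Nullstellensatz certificate for one choice of pivots -/
theorem nul_dec (hN : S_NUL) (f : RMap K N) {m : ℕ} {a : Fin (m + 1) → ℤ} (T : Triv f m a)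
    (q : Fin (m + 1) → Fin (N + 1)) :
    ∃ R : Fin T.s → MvPolynomial (Fin (m + 1) × Fin (N + 1)) K,
      ∀ (Ω : Type) [Field Ω] (ι : K →+* Ω) (y : Fin (m + 1) → Fin (N + 1) → Ω),
        (∀ Q ∈ f.segIdeal m, eval₂ ι (fun p => y p.1 p.2) Q = 0) → (∀ i, y i (q i) = 1) →
        ∑ l, eval₂ ι (fun p => y p.1 p.2) (R l) *
          (eval₂ ι (fun p => y p.1 p.2) (T.A l) * eval₂ ι (fun p => y p.1 p.2) (T.B l)) = 1 := by
  set S1 : Set (MvPolynomial (Fin (m + 1) × Fin (N + 1)) K) :=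
    f.segIdeal m ∪ Set.range (fun i => X (i, q i) - 1) with hS1
  set S2 : Set (MvPolynomial (Fin (m + 1) × Fin (N + 1)) K) := Set.range (fun l => T.A l * T.B l) with hS2
  have htop : Ideal.span (S1 ∪ S2) = ⊤ := by
    refine hN K _ _ ?_
    intro y
    by_contra hcon
    push Not at hcon
    have hs1 : ∀ Q ∈ f.segIdeal m, aeval y Q = 0 := fun Q hQ => hcon Q (Or.inl (Or.inl hQ))
    have hq : ∀ i, y (i, q i) = 1 := fun i => by
      have := hcon _ (Or.inl (Or.inr ⟨i, rfl⟩))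
      simp only [map_sub, aeval_X, map_one] at this
      exact sub_eq_zero.mp this
    have hAB : ∀ l, aeval y (T.A l) * aeval y (T.B l) = 0 := fun l => by
      have := hcon _ (Or.inr ⟨l, rfl⟩)
      simpa only [map_mul] using this
    set Y : Fin (m + 1) → Fin (N + 1) → ℂ := fun i j => y (i, j) with hY
    have hne : ∀ i, Y i ≠ 0 := fun i h => by
      have h1 := congrFun h (q i)
      simp only [hY, Pi.zero_apply] at h1
      rw [hq i] at h1
      exact one_ne_zero h1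
    have hseg : f.IsSegment Y := by
      refine ⟨⟨hne 0, ?_⟩, ?_⟩
      · intro E hE
        have h1 : rename (fun j => ((0 : Fin (m + 1)), j)) E ∈ f.segIdeal m := by
          intro z hz
          rw [aeval_rename]
          exact hz.1.2 E hE
        have h2 := hs1 _ h1
        rw [aeval_rename] at h2
        exact h2
      · intro i
        refine ⟨hne _, fun l => ?_⟩
        refine ⟨aeval (Y i.castSucc) (f.G l (q i.succ)), fun j => ?_⟩
        have h1 : rename (fun j => (i.castSucc, j)) (f.G l (q i.succ)) * X (i.succ, j)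
            - rename (fun j => (i.castSucc, j)) (f.G l j) * X (i.succ, q i.succ) ∈ f.segIdeal m := by
          intro z hz
          obtain ⟨-, hz2⟩ := hz.2 i
          obtain ⟨c, hc⟩ := hz2 l
          simp only [map_sub, map_mul, aeval_rename, aeval_X]
          have e1 : aeval ((fun p : Fin (m + 1) × Fin (N + 1) => z p.1 p.2) ∘ fun j => (i.castSucc, j))
              (f.G l (q i.succ)) = c * z i.succ (q i.succ) := hc _
          have e2 : aeval ((fun p : Fin (m + 1) × Fin (N + 1) => z p.1 p.2) ∘ fun j => (i.castSucc, j))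
              (f.G l j) = c * z i.succ j := hc _
          rw [e1, e2]; ring
        have h2 := hs1 _ h1
        simp only [map_sub, map_mul, aeval_rename, aeval_X] at h2
        rw [hq i.succ, mul_one] at h2
        exact (sub_eq_zero.mp h2).symm
    obtain ⟨l, hl1, hl2⟩ := T.cover Y hseg
    exact (mul_ne_zero hl1 hl2) (hAB l)
  have h1 : (1 : MvPolynomial (Fin (m + 1) × Fin (N + 1)) K) ∈ Ideal.span S1 ⊔ Ideal.span S2 := by
    rw [← Ideal.span_union, htop]
    exact Submodule.mem_top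
  obtain ⟨u, hu, v, hv, huv⟩ := Submodule.mem_sup.mp h1
  rw [hS2, Ideal.mem_span_range_iff_exists_fun] at hv
  obtain ⟨R, hR⟩ := hv
  refine ⟨R, ?_⟩
  intro Ω _ ι y hy hyq
  set φ := eval₂Hom ι (fun p : Fin (m + 1) × Fin (N + 1) => y p.1 p.2) with hφ
  have hu0 : φ u = 0 := by
    have h2 : Ideal.span S1 ≤ RingHom.ker φ := by
      rw [Ideal.span_le]
      rintro Q (hQ | ⟨i, rfl⟩)
      · exact hy Q hQ
      · show φ (X (i, q i) - 1) = 0
        rw [map_sub, map_one, hφ, eval₂Hom_X']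
        simp only
        rw [hyq i, sub_self]
    exact h2 hu
  have h3 : φ (u + v) = 1 := by rw [huv, map_one]
  rw [map_add, hu0, zero_add, ← hR, map_sum] at h3
  simp only [map_mul] at h3
  exact h3

end seg

/-- the maximum of the coordinates is attained -/
theorem vn_attain {R : Type} [CommRing R] {N : ℕ} (w : AbsoluteValue R ℝ) (x : Fin (N + 1) → R) :
    ∃ j, vn w x = w (x j) ∧ ∀ i, w (x i) ≤ w (x j) := by
  obtain ⟨j, hj⟩ := Finite.exists_max (fun j => w (x j))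
  refine ⟨j, ?_, hj⟩
  unfold vn
  exact le_antisymm (ciSup_le hj) (le_ciSup (f := fun j => w (x j)) (Set.finite_range _).bddAbove j)

theorem log_bound {Γ s r a b : ℝ} (hΓ : 1 ≤ Γ) (hs : 1 ≤ s) (hr0 : 0 ≤ r) (ha0 : 0 ≤ a) (hb0 : 0 ≤ b)
    (hr : r ≤ Γ) (ha : a ≤ Γ) (hb : b ≤ Γ) (h : 1 ≤ s * (r * (a * b))) :
    0 < a ∧ 0 < b ∧ |Real.log a - Real.log b| ≤ Real.log (s * Γ ^ 3) := by
  have hr' : 0 < r := by
    rcases hr0.lt_or_eq with h1 | h1
    · exact h1
    · rw [← h1] at h; simp at h; linarith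
  have ha' : 0 < a := by
    rcases ha0.lt_or_eq with h1 | h1
    · exact h1
    · rw [← h1] at h; simp at h; linarith
  have hb' : 0 < b := by
    rcases hb0.lt_or_eq with h1 | h1
    · exact h1
    · rw [← h1] at h; simp at h; linarith
  have hΓ0 : 0 < Γ := by linarith
  have hs0 : 0 < s := by linarith
  have e0 : 0 ≤ Real.log s + (Real.log r + (Real.log a + Real.log b)) := by
    have := Real.log_nonneg h
    rwa [Real.log_mul hs0.ne' (by positivity), Real.log_mul hr'.ne' (by positivity),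
      Real.log_mul ha'.ne' hb'.ne'] at this
  have e1 := Real.log_le_log hr' hr
  have e2 := Real.log_le_log ha' ha
  have e3 := Real.log_le_log hb' hb
  have e4 : Real.log (s * Γ ^ 3) = Real.log s + 3 * Real.log Γ := by
    rw [Real.log_mul hs0.ne' (by positivity), Real.log_pow]; push_cast; ring
  have e5 : 0 ≤ Real.log Γ := Real.log_nonneg hΓ
  refine ⟨ha', hb', ?_⟩
  rw [e4, abs_le]
  constructor <;> linarith

/-- the common last step -/
theorem final {K : Type} [Field K] [Algebra K ℂ] {N : ℕ} (f : RMap K N) {m : ℕ} {a : Fin (m + 1) → ℤ}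
    (T : Triv f m a) {Ω : Type} [Field Ω] (w : AbsoluteValue Ω ℝ) (ι : K →+* Ω)
    (y y' : Fin (m + 1) → Fin (N + 1) → Ω) (lam : Fin (m + 1) → Ω) (hlam : ∀ i, lam i ≠ 0)
    (hyy : ∀ i j, y i j = lam i * y' i j) (hv : ∀ i, vn w (y i) = w (lam i)) (l : Fin T.s) {B : ℝ}
    (hA : eval₂ ι (fun p => y' p.1 p.2) (T.A l) ≠ 0) (hB : eval₂ ι (fun p => y' p.1 p.2) (T.B l) ≠ 0)
    (hlog : |Real.log (w (eval₂ ι (fun p => y' p.1 p.2) (T.A l))) -
      Real.log (w (eval₂ ι (fun p => y' p.1 p.2) (T.B l)))| ≤ B) :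
    eval₂ ι (fun p => y p.1 p.2) (T.A l) ≠ 0 ∧ eval₂ ι (fun p => y p.1 p.2) (T.B l) ≠ 0 ∧
      |Real.log (w (eval₂ ι (fun p => y p.1 p.2) (T.A l) / eval₂ ι (fun p => y p.1 p.2) (T.B l))) -
        ∑ i, (a i : ℝ) * Real.log (vn w (y i))| ≤ B := by
  have hy : (fun p : Fin (m + 1) × Fin (N + 1) => y p.1 p.2) = fun p => lam p.1 * y' p.1 p.2 := by
    funext p; exact hyy _ _
  rw [hy, eval₂_scale ι (T.A_homog l), eval₂_scale ι (T.B_homog l)]
  have hpA : ∏ i, lam i ^ T.α l i ≠ 0 := Finset.prod_ne_zero_iff.mpr fun i _ => pow_ne_zero _ (hlam i)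
  have hpB : ∏ i, lam i ^ T.β l i ≠ 0 := Finset.prod_ne_zero_iff.mpr fun i _ => pow_ne_zero _ (hlam i)
  refine ⟨mul_ne_zero hpA hA, mul_ne_zero hpB hB, ?_⟩
  have hw : ∀ {x : Ω}, x ≠ 0 → w x ≠ 0 := fun hx => (w.pos hx).ne'
  have hlogp : ∀ e : Fin (m + 1) → ℕ, Real.log (w (∏ i, lam i ^ e i)) = ∑ i, (e i : ℝ) * Real.log (w (lam i)) := by
    intro e
    rw [map_prod, Real.log_prod (fun i _ => hw (pow_ne_zero _ (hlam i)))]
    refine Finset.sum_congr rfl fun i _ => ?_
    rw [map_pow, Real.log_pow]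
  rw [map_div₀, map_mul, map_mul, Real.log_div (mul_ne_zero (hw hpA) (hw hA)) (mul_ne_zero (hw hpB) (hw hB)),
    Real.log_mul (hw hpA) (hw hA), Real.log_mul (hw hpB) (hw hB), hlogp, hlogp]
  have hsum : ∑ i, (a i : ℝ) * Real.log (vn w (y i))
      = ∑ i, (T.α l i : ℝ) * Real.log (w (lam i)) - ∑ i, (T.β l i : ℝ) * Real.log (w (lam i)) := by
    rw [← Finset.sum_sub_distrib]
    refine Finset.sum_congr rfl fun i _ => ?_
    rw [hv i, ← sub_mul]
    congr 1
    have := T.degree l i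
    have h2 : ((a i : ℤ) : ℝ) = ((T.α l i : ℤ) : ℝ) - ((T.β l i : ℤ) : ℝ) := by
      rw [← this]; push_cast; ring
    rw [h2]; push_cast; ring
  rw [hsum]
  have e : ∑ i, (T.α l i : ℝ) * Real.log (w (lam i)) + Real.log (w (eval₂ ι (fun p => y' p.1 p.2) (T.A l))) -
      (∑ i, (T.β l i : ℝ) * Real.log (w (lam i)) + Real.log (w (eval₂ ι (fun p => y' p.1 p.2) (T.B l)))) -
      (∑ i, (T.α l i : ℝ) * Real.log (w (lam i)) - ∑ i, (T.β l i : ℝ) * Real.log (w (lam i)))
      = Real.log (w (eval₂ ι (fun p => y' p.1 p.2) (T.A l))) -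
        Real.log (w (eval₂ ι (fun p => y' p.1 p.2) (T.B l))) := by ring
  rw [e]
  exact hlog

theorem trv (hN : S_NUL) (hG : S_GAM) : S_TRV := by
  intro K _ _ _ N f m a T
  choose R hR using fun q => nul_dec hN f T q
  set S : Set (MvPolynomial (Fin (m + 1) × Fin (N + 1)) K) :=
    Set.range (fun p : (Fin (m + 1) → Fin (N + 1)) × Fin T.s => R p.1 p.2) ∪ (Set.range T.A ∪ Set.range T.B)
    with hS
  have hSf : S.Finite :=
    (Set.finite_range _).union ((Set.finite_range _).union (Set.finite_range _))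
  obtain ⟨Γ, Γ', hΓ, hΓ', hb⟩ := hG K _ S hSf
  have hRS : ∀ q l, R q l ∈ S := fun q l => Or.inl ⟨(q, l), rfl⟩
  have hAS : ∀ l, T.A l ∈ S := fun l => Or.inr (Or.inl ⟨l, rfl⟩)
  have hBS : ∀ l, T.B l ∈ S := fun l => Or.inr (Or.inr ⟨l, rfl⟩)
  refine ⟨fun v => Γ v ^ 3, ((T.s : ℝ) + 1) * Γ' ^ 3, ⟨?_, ?_, ?_⟩, ?_, ?_, ?_⟩
  · intro v
    exact one_le_pow₀ (hΓ.1 v)
  · intro v hv
    simp only
    rw [hΓ.2.1 v hv, one_pow]
  · refine hΓ.2.2.subset ?_
    rintro v ⟨h1, h2⟩
    refine ⟨h1, fun h3 => h2 ?_⟩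
    simp only
    rw [h3, one_pow]
  · have h1 : (1 : ℝ) ≤ (T.s : ℝ) + 1 := by
      have : (0 : ℝ) ≤ (T.s : ℝ) := Nat.cast_nonneg _
      linarith
    have h2 : 1 ≤ Γ' ^ 3 := one_le_pow₀ hΓ'
    nlinarith
  · intro Ω _ w ι y hna hy0 hy
    choose q hq1 hq2 using fun i => vn_attain w (y i)
    have hlam : ∀ i, y i (q i) ≠ 0 := by
      intro i h
      apply hy0 i
      funext j
      have h1 := hq2 i j
      rw [h, map_zero] at h1
      exact (AbsoluteValue.eq_zero w).mp (le_antisymm h1 (w.nonneg _))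
    set y' : Fin (m + 1) → Fin (N + 1) → Ω := fun i j => (y i (q i))⁻¹ * y i j with hy'
    have hv' := vanish_scale f ι y hy (fun i => (y i (q i))⁻¹)
    have hq' : ∀ i, y' i (q i) = 1 := fun i => inv_mul_cancel₀ (hlam i)
    have hsum := hR q Ω ι y' hv' hq'
    have hle : ∀ p : Fin (m + 1) × Fin (N + 1), w (y' p.1 p.2) ≤ 1 := by
      intro p
      simp only [hy']
      rw [map_mul, map_inv₀]
      have h1 := hq2 p.1 p.2
      have h2 : 0 < w (y p.1 (q p.1)) := w.pos (hlam p.1)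
      rw [inv_mul_le_one₀ h2]
      exact h1
    have hex : ∃ l, 1 ≤ w (eval₂ ι (fun p => y' p.1 p.2) (R q l) *
          (eval₂ ι (fun p => y' p.1 p.2) (T.A l) * eval₂ ι (fun p => y' p.1 p.2) (T.B l))) := by
      by_contra hcon
      push Not at hcon
      have h1 : ∀ t : Finset (Fin T.s), w (∑ l ∈ t, eval₂ ι (fun p => y' p.1 p.2) (R q l) *
          (eval₂ ι (fun p => y' p.1 p.2) (T.A l) * eval₂ ι (fun p => y' p.1 p.2) (T.B l))) < 1 := by
        intro t
        induction t using Finset.induction_on with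
        | empty => simp
        | insert l t hl ih =>
          rw [Finset.sum_insert hl]
          exact lt_of_le_of_lt (hna _ _) (max_lt (hcon l) ih)
      have h2 := h1 Finset.univ
      rw [hsum, map_one] at h2
      exact lt_irrefl _ h2
    obtain ⟨l, hl⟩ := hex
    rw [map_mul, map_mul] at hl
    have hbd := log_bound (s := 1) (hΓ.1 (w.comp ι.injective)) le_rfl (w.nonneg _) (w.nonneg _) (w.nonneg _)
      ((hb _ (hRS q l)).1 Ω w ι (fun p => y' p.1 p.2) hna hle)
      ((hb _ (hAS l)).1 Ω w ι (fun p => y' p.1 p.2) hna hle)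
      ((hb _ (hBS l)).1 Ω w ι (fun p => y' p.1 p.2) hna hle) (by rw [one_mul]; exact hl)
    rw [one_mul] at hbd
    obtain ⟨hA, hB, hlog⟩ := hbd
    refine ⟨l, final f T w ι y y' (fun i => y i (q i)) hlam ?_ hq1 l ?_ ?_ hlog⟩
    · intro i j
      simp only [hy']
      rw [← mul_assoc, mul_inv_cancel₀ (hlam i), one_mul]
    · intro h
      rw [h, map_zero] at hA
      exact lt_irrefl _ hA
    · intro h
      rw [h, map_zero] at hB
      exact lt_irrefl _ hB
  · intro ι y hy0 hy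
    choose q hq1 hq2 using fun i => vn_attain absC (y i)
    have hlam : ∀ i, y i (q i) ≠ 0 := by
      intro i h
      apply hy0 i
      funext j
      have h1 := hq2 i j
      rw [h, map_zero] at h1
      exact (AbsoluteValue.eq_zero absC).mp (le_antisymm h1 (absC.nonneg _))
    set y' : Fin (m + 1) → Fin (N + 1) → ℂ := fun i j => (y i (q i))⁻¹ * y i j with hy'
    have hv' := vanish_scale f ι y hy (fun i => (y i (q i))⁻¹)
    have hq' : ∀ i, y' i (q i) = 1 := fun i => inv_mul_cancel₀ (hlam i)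
    have hsum := hR q ℂ ι y' hv' hq'
    have hle : ∀ p : Fin (m + 1) × Fin (N + 1), ‖y' p.1 p.2‖ ≤ 1 := by
      intro p
      simp only [hy']
      rw [norm_mul, norm_inv]
      have h1 : ‖y p.1 p.2‖ ≤ ‖y p.1 (q p.1)‖ := hq2 p.1 p.2
      have h2 : 0 < ‖y p.1 (q p.1)‖ := norm_pos_iff.mpr (hlam p.1)
      rw [inv_mul_le_one₀ h2]
      exact h1
    have hs0 : (0 : ℝ) ≤ (T.s : ℝ) := Nat.cast_nonneg _
    have hex : ∃ l, 1 ≤ ((T.s : ℝ) + 1) * ‖eval₂ ι (fun p => y' p.1 p.2) (R q l) *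
          (eval₂ ι (fun p => y' p.1 p.2) (T.A l) * eval₂ ι (fun p => y' p.1 p.2) (T.B l))‖ := by
      by_contra hcon
      push Not at hcon
      have h1 := norm_sum_le Finset.univ (fun l => eval₂ ι (fun p => y' p.1 p.2) (R q l) *
          (eval₂ ι (fun p => y' p.1 p.2) (T.A l) * eval₂ ι (fun p => y' p.1 p.2) (T.B l)))
      rw [hsum, norm_one] at h1
      have h2 : ((T.s : ℝ) + 1) * ∑ l, ‖eval₂ ι (fun p => y' p.1 p.2) (R q l) *
          (eval₂ ι (fun p => y' p.1 p.2) (T.A l) * eval₂ ι (fun p => y' p.1 p.2) (T.B l))‖ ≤ T.s := by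
        rw [Finset.mul_sum]
        calc _ ≤ ∑ _l : Fin T.s, (1 : ℝ) := Finset.sum_le_sum fun l _ => (hcon l).le
          _ = T.s := by simp
      nlinarith
    obtain ⟨l, hl⟩ := hex
    rw [norm_mul, norm_mul] at hl
    obtain ⟨hA, hB, hlog⟩ := log_bound hΓ' (by linarith : (1 : ℝ) ≤ (T.s : ℝ) + 1) (norm_nonneg _) (norm_nonneg _)
      (norm_nonneg _) ((hb _ (hRS q l)).2 ι (fun p => y' p.1 p.2) hle)
      ((hb _ (hAS l)).2 ι (fun p => y' p.1 p.2) hle)
      ((hb _ (hBS l)).2 ι (fun p => y' p.1 p.2) hle) hl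
    refine ⟨l, final f T absC ι y y' (fun i => y i (q i)) hlam ?_ hq1 l (norm_pos_iff.mp hA)
      (norm_pos_iff.mp hB) hlog⟩
    intro i j
    simp only [hy']
    rw [← mul_assoc, mul_inv_cancel₀ (hlam i), one_mul]

end Pool.Agent.Helper19.HD
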